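import Pool.Agent.W528.HD.Stm
import Pool.Agent.W125.HC.PC

/-!
# The point count of the surface over a covering curve
-/

set_option autoImplicit false

namespace Pool.Agent.W177.HD.PF

open Finset Polynomial Pool.Agent.W528.HA Pool.Agent.W528.HC Pool.Agent.W528.HD Pool.Agent.W125.HC.PC

section

variable {L : Type} [Field L] [Fintype L]

theorem base_eq [DecidableEq L] {r n : ℕ} (γ : Fin n → L[X]) (b : Fin n → ℕ) {E : Type} [Field E] :
    ((basePts L r γ b : ℕ) : E) = ∑ t : L,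
      ((Set.ncard {u : L | u ^ r = ∏ l, ((γ l).eval t) ^ b l} : ℕ) : E) := by
  classical
  unfold basePts
  have h : {v : L × L | v.2 ^ r = ∏ l, ((γ l).eval v.1) ^ b l} =
      ((univ.filter (fun v : L × L => v.2 ^ r = ∏ l, ((γ l).eval v.1) ^ b l) : Finset (L × L)) :
        Set (L × L)) := by
    ext y; simp
  rw [h, Set.ncard_coe_finset, card_filter, Fintype.sum_prod_type]
  push_cast
  refine sum_congr rfl fun t _ => ?_
  rw [ncard_eq]

theorem total_eq [DecidableEq L] {p r m n : ℕ} (α : Fin m → L[X]) (a : Fin m → ℕ) (γ : Fin n → L[X])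
    (b : Fin n → ℕ) {E : Type} [Field E] :
    ((totalPts L p r α a γ b : ℕ) : E) = ∑ x : L, ∑ t : L,
      ((Set.ncard {y : L | y ^ p = ∏ i, (x - (α i).eval t) ^ a i} : ℕ) : E) *
      ((Set.ncard {u : L | u ^ r = ∏ l, ((γ l).eval t) ^ b l} : ℕ) : E) := by
  classical
  unfold totalPts
  have h : {v : (L × L) × L × L | v.2.1 ^ r = ∏ l, ((γ l).eval v.1.2) ^ b l ∧
      v.2.2 ^ p = ∏ i, (v.1.1 - (α i).eval v.1.2) ^ a i} =
      ((univ.filter (fun v : (L × L) × L × L => v.2.1 ^ r = ∏ l, ((γ l).eval v.1.2) ^ b l ∧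
        v.2.2 ^ p = ∏ i, (v.1.1 - (α i).eval v.1.2) ^ a i) : Finset ((L × L) × L × L)) :
        Set ((L × L) × L × L)) := by
    ext y; simp
  rw [h, Set.ncard_coe_finset, card_filter, Fintype.sum_prod_type, Fintype.sum_prod_type]
  push_cast
  refine sum_congr rfl fun x _ => sum_congr rfl fun t _ => ?_
  rw [Fintype.sum_prod_type, ncard_eq, ncard_eq, sum_mul_sum, sum_comm]
  refine sum_congr rfl fun y _ => sum_congr rfl fun u _ => ?_
  by_cases h1 : u ^ r = ∏ l, ((γ l).eval t) ^ b l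
  · by_cases h2 : y ^ p = ∏ i, (x - (α i).eval t) ^ a i
    · simp [h1, h2]
    · simp [h1, h2]
  · simp [h1]

end

theorem main : Pool.Agent.W528.HC.PR → Pool.Agent.W528.HC.MU → Pool.Agent.W528.HD.PF := by
  classical
  intro hPR hMU L _ _ p r z hp hr hpr hz E _ _ μ hμ m n α a γ b ha hb
  have hN : 0 < p * r := Nat.mul_pos hp.pos hr.pos
  have hN2 : 2 ≤ p * r := by
    calc 2 ≤ p := hp.two_le
      _ = p * 1 := (mul_one p).symm
      _ ≤ p * r := Nat.mul_le_mul_left p hr.pos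
  have hmu := hMU L (p * r) z hN2 hz E μ hμ.pow_eq_one
  have hz' : IsPrimitiveRoot z (r * p) := by
    rw [mul_comm]
    exact hz
  -- the functions
  obtain ⟨F, hF⟩ : ∃ F : L → L → L, F = fun x t => ∏ i, (x - (α i).eval t) ^ a i := ⟨_, rfl⟩
  obtain ⟨G, hG⟩ : ∃ G : L → L, G = fun t => ∏ l, ((γ l).eval t) ^ b l := ⟨_, rfl⟩
  have h0 : ∀ j ∈ Ico 1 p, ∀ x t : L, (∏ i, (x - (α i).eval t) ^ (r * (j * a i % p))) ^
      ((Fintype.card L - 1) / (p * r)) = (F x t ^ (r * j)) ^
      ((Fintype.card L - 1) / (p * r)) := by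
    intro j hj x t
    rw [mem_Ico] at hj
    rw [hF]
    simp only
    rw [← prod_pow, ← prod_pow, ← prod_pow]
    refine prod_congr rfl fun i _ => ?_
    have hnd : ¬ p ∣ j * a i := by
      intro hd
      rcases (Nat.Prime.dvd_mul hp).1 hd with h | h
      · have := Nat.le_of_dvd (by omega) h
        omega
      · have := Nat.le_of_dvd (ha i).1 h
        have := (ha i).2
        omega
    rw [pow_mod hp.pos hr.pos hz hnd, ← pow_mul (x - (α i).eval t) (a i)]
    congr 2
    ring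
  have h0' : ∀ s ∈ range r, ∀ t : L, (∏ l, ((γ l).eval t) ^ (p * (s * b l % r))) ^
      ((Fintype.card L - 1) / (p * r)) = (G t ^ (p * s)) ^
      ((Fintype.card L - 1) / (p * r)) := by
    intro s hs t
    rw [mem_range] at hs
    rcases Nat.eq_zero_or_pos s with hs0 | hs0
    · subst hs0
      simp
    · rw [hG]
      simp only
      rw [← prod_pow, ← prod_pow, ← prod_pow]
      refine prod_congr rfl fun l _ => ?_
      have hnd : ¬ r ∣ s * b l := by
        intro hd
        rcases (Nat.Prime.dvd_mul hr).1 hd with h | h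
        · have := Nat.le_of_dvd hs0 h
          omega
        · have := Nat.le_of_dvd (hb l).1 h
          have := (hb l).2
          omega
      have h1 := pow_mod hr.pos hp.pos hz' hnd ((γ l).eval t)
      rw [mul_comm r p] at h1
      rw [h1, ← pow_mul ((γ l).eval t) (b l)]
      congr 2
      ring
  have h1 : ∀ j ∈ Ico 1 p, ∀ s ∈ range r, ∀ x t : L, kv (p * r) z μ
      (((∏ i, (x - (α i).eval t) ^ (r * (j * a i % p))) * ∏ l, ((γ l).eval t) ^ (p * (s * b l % r)))
        ^ ((Fintype.card L - 1) / (p * r))) =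
      kv (p * r) z μ ((F x t ^ (r * j)) ^ ((Fintype.card L - 1) / (p * r))) *
        kv (p * r) z μ ((G t ^ (p * s)) ^ ((Fintype.card L - 1) / (p * r))) := by
    intro j hj s hs x t
    rw [hmu, h0 j hj x t, h0' s hs t]
  have h2 : ∀ v : L, ∑ j ∈ Ico 1 p,
      kv (p * r) z μ ((v ^ (r * j)) ^ ((Fintype.card L - 1) / (p * r))) =
      ((Set.ncard {y : L | y ^ p = v} : ℕ) : E) - 1 := by
    intro v
    have := hPR L (p * r) p r z rfl hz hp.pos hr.pos E μ hμ v
    rw [this]; ring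
  have h3 : ∀ v : L, ∑ s ∈ range r,
      kv (p * r) z μ ((v ^ (p * s)) ^ ((Fintype.card L - 1) / (p * r))) =
      ((Set.ncard {y : L | y ^ r = v} : ℕ) : E) := by
    intro v
    have := hPR L (p * r) r p z (mul_comm p r) hz hr.pos hp.pos E μ hμ v
    rw [this, range_eq_Ico, sum_eq_sum_Ico_succ_bot hr.pos]
    congr 1
    rw [mul_zero, pow_zero, one_pow, kv_one hN hz]
  unfold polySum2
  obtain ⟨A, hA⟩ : ∃ A : L → L → ℕ → E, A = fun x t j =>
      kv (p * r) z μ ((F x t ^ (r * j)) ^ ((Fintype.card L - 1) / (p * r))) := ⟨_, rfl⟩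
  obtain ⟨B, hB⟩ : ∃ B : L → ℕ → E, B = fun t s =>
      kv (p * r) z μ ((G t ^ (p * s)) ^ ((Fintype.card L - 1) / (p * r))) := ⟨_, rfl⟩
  have h2' : ∀ x t : L, (∑ j ∈ Ico 1 p, A x t j) =
      ((Set.ncard {y : L | y ^ p = F x t} : ℕ) : E) - 1 := by
    intro x t
    rw [hA]
    exact h2 (F x t)
  have h3' : ∀ t : L, (∑ s ∈ range r, B t s) =
      ((Set.ncard {y : L | y ^ r = G t} : ℕ) : E) := by
    intro t
    rw [hB]
    exact h3 (G t)
  have e1 : (∑ j ∈ Ico 1 p, ∑ s ∈ range r, ∑ x : L, ∑ t : L, kv (p * r) z μ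
      (((∏ i, (x - (α i).eval t) ^ (r * (j * a i % p))) * ∏ l, ((γ l).eval t) ^ (p * (s * b l % r)))
        ^ ((Fintype.card L - 1) / (p * r)))) =
      ∑ j ∈ Ico 1 p, ∑ s ∈ range r, ∑ x : L, ∑ t : L, A x t j * B t s := by
    rw [hA, hB]
    exact sum_congr rfl fun j hj => sum_congr rfl fun s hs => sum_congr rfl fun x _ =>
          sum_congr rfl fun t _ => h1 j hj s hs x t
  have e3 : (∑ x : L, ∑ t : L, (∑ j ∈ Ico 1 p, A x t j) * (∑ s ∈ range r, B t s)) =
      ∑ x : L, ∑ t : L, (((Set.ncard {y : L | y ^ p = F x t} : ℕ) : E) *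
        ((Set.ncard {u : L | u ^ r = G t} : ℕ) : E) -
          ((Set.ncard {u : L | u ^ r = G t} : ℕ) : E)) :=
    sum_congr rfl fun x _ => sum_congr rfl fun t _ => by rw [h2', h3']; ring
  refine e1.trans ((swap4 (Ico 1 p) (range r) A B).trans (e3.trans ?_))
  rw [total_eq, base_eq, hF, hG]
  simp only [sum_sub_distrib, sum_const, card_univ, nsmul_eq_mul]

end Pool.Agent.W177.HD.PF
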